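import Mathlib

set_option autoImplicit false

namespace Pool.Agent.Helper64.MRDP

/-! Sequences as digits in a large base; the bitwise order; binomial coefficients. -/

/-- the number with `T` digits `x 0, x 1, …` in base `Q` (least significant digit first) -/
def enc (Q : ℕ) : ℕ → (ℕ → ℕ) → ℕ
  | 0, _ => 0
  | T + 1, x => x 0 + Q * enc Q T (fun t => x (t + 1))

variable {Q : ℕ}

theorem enc_congr (T : ℕ) {x y : ℕ → ℕ} (h : ∀ t < T, x t = y t) : enc Q T x = enc Q T y := by
  induction T generalizing x y with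
  | zero => rfl
  | succ T ih =>
    unfold enc
    rw [h 0 (Nat.succ_pos T), ih fun t ht => h (t + 1) (Nat.succ_lt_succ ht)]

theorem enc_add (T : ℕ) (x y : ℕ → ℕ) :
    enc Q T (fun t => x t + y t) = enc Q T x + enc Q T y := by
  induction T generalizing x y with
  | zero => rfl
  | succ T ih =>
    unfold enc
    rw [ih]
    ring

theorem enc_mul (T : ℕ) (c : ℕ) (x : ℕ → ℕ) :
    enc Q T (fun t => c * x t) = c * enc Q T x := by
  induction T generalizing x with
  | zero => rfl
  | succ T ih =>
    unfold enc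
    rw [ih]
    ring

theorem enc_zero (T : ℕ) : enc Q T (fun _ => 0) = 0 := by
  induction T with
  | zero => rfl
  | succ T ih =>
    unfold enc
    rw [ih]
    ring

theorem enc_sum {ι : Type*} (s : Finset ι) (T : ℕ) (x : ι → ℕ → ℕ) :
    enc Q T (fun t => ∑ i ∈ s, x i t) = ∑ i ∈ s, enc Q T (x i) := by
  classical
  induction s using Finset.induction_on with
  | empty => simp [enc_zero]
  | insert i s hi ih =>
    rw [Finset.sum_insert hi, ← ih, ← enc_add]
    congr 1
    funext t
    rw [Finset.sum_insert hi]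

theorem enc_snoc (T : ℕ) (x : ℕ → ℕ) : enc Q (T + 1) x = enc Q T x + Q ^ T * x T := by
  induction T generalizing x with
  | zero => simp [enc]
  | succ T ih =>
    rw [enc, ih, enc]
    ring

theorem enc_one (T : ℕ) : Q * enc Q T (fun _ => 1) + 1 = Q ^ T + enc Q T (fun _ => 1) := by
  induction T with
  | zero => simp [enc]
  | succ T ih =>
    have h : enc Q (T + 1) (fun _ => 1) = 1 + Q * enc Q T (fun _ => 1) := rfl
    rw [h]
    have h2 : Q * (1 + Q * enc Q T (fun _ => 1)) + 1 = Q * (Q * enc Q T (fun _ => 1) + 1) + 1 := by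
      ring
    rw [h2, ih]
    ring

theorem enc_one_unique (hQ : 1 < Q) {T I : ℕ} (h : Q * I + 1 = Q ^ T + I) :
    I = enc Q T (fun _ => 1) := by
  have h1 := enc_one (Q := Q) T
  obtain ⟨q, rfl⟩ : ∃ q, Q = q + 2 := ⟨Q - 2, by omega⟩
  generalize enc (q + 2) T (fun _ => 1) = J at h1
  have h2 : (q + 1) * I = (q + 1) * J := by
    have e1 : (q + 2) * I = (q + 1) * I + I := by ring
    have e2 : (q + 2) * J = (q + 1) * J + J := by ring
    omega
  exact Nat.eq_of_mul_eq_mul_left (Nat.succ_pos q) h2

theorem enc_inj {T : ℕ} {x y : ℕ → ℕ} (hx : ∀ t < T, x t < Q) (hy : ∀ t < T, y t < Q)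
    (h : enc Q (T + 1) x = enc Q (T + 1) y) : ∀ t ≤ T, x t = y t := by
  induction T generalizing x y with
  | zero =>
    intro t ht
    have ht0 : t = 0 := by omega
    subst ht0
    simpa [enc] using h
  | succ T ih =>
    have hQ : 0 < Q := lt_of_le_of_lt (Nat.zero_le _) (hx 0 (Nat.succ_pos T))
    replace h : x 0 + Q * enc Q (T + 1) (fun t => x (t + 1)) =
      y 0 + Q * enc Q (T + 1) (fun t => y (t + 1)) := h
    have h0 : x 0 = y 0 := by
      have h1 := congrArg (· % Q) h
      simpa [Nat.mod_eq_of_lt (hx 0 (Nat.succ_pos T)), Nat.mod_eq_of_lt (hy 0 (Nat.succ_pos T))]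
        using h1
    have h1 : enc Q (T + 1) (fun t => x (t + 1)) = enc Q (T + 1) (fun t => y (t + 1)) := by
      rw [h0] at h
      exact Nat.eq_of_mul_eq_mul_left hQ (Nat.add_left_cancel h)
    have h2 := ih (fun t ht => hx (t + 1) (Nat.succ_lt_succ ht))
      (fun t ht => hy (t + 1) (Nat.succ_lt_succ ht)) h1
    intro t ht
    cases t with
    | zero => exact h0
    | succ t => exact h2 t (Nat.le_of_succ_le_succ ht)

/-- extraction of a digit -/
theorem enc_digit {T k : ℕ} {x : ℕ → ℕ} (hk : k < T) (hx : ∀ t < T, x t < Q) :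
    enc Q T x / Q ^ k % Q = x k := by
  induction T generalizing x k with
  | zero => omega
  | succ T ih =>
    have h0 := hx 0 (Nat.succ_pos T)
    have hQ : 0 < Q := lt_of_le_of_lt (Nat.zero_le _) h0
    rw [enc]
    cases k with
    | zero => simp [Nat.mod_eq_of_lt h0]
    | succ k =>
      rw [pow_succ', ← Nat.div_div_eq_div_mul, Nat.add_mul_div_left _ _ hQ, Nat.div_eq_of_lt h0,
        zero_add]
      exact ih (Nat.lt_of_succ_lt_succ hk) fun t ht => hx (t + 1) (Nat.succ_lt_succ ht)

theorem enc_eq_sum (T : ℕ) (x : ℕ → ℕ) : enc Q T x = ∑ t ∈ Finset.range T, Q ^ t * x t := by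
  induction T with
  | zero => rfl
  | succ T ih => rw [enc_snoc, Finset.sum_range_succ, ih]

/-- binomial coefficients as digits -/
theorem choose_eq (n k : ℕ) :
    n.choose k = ((2 ^ n + 1 + 1) ^ n / (2 ^ n + 1) ^ k) % (2 ^ n + 1) := by
  have h1 : (2 ^ n + 1 + 1) ^ n = enc (2 ^ n + 1) (n + 1 + k) (fun i => n.choose i) := by
    rw [enc_eq_sum, Finset.sum_range_add, add_pow]
    have h2 : ∑ x ∈ Finset.range k, (2 ^ n + 1) ^ (n + 1 + x) * n.choose (n + 1 + x) = 0 := by
      apply Finset.sum_eq_zero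
      intro x _
      rw [Nat.choose_eq_zero_of_lt (by omega)]
      simp
    rw [h2, add_zero]
    apply Finset.sum_congr rfl
    intro i _
    simp
  rw [h1, enc_digit (by omega)]
  intro t _
  exact lt_of_le_of_lt (Nat.choose_le_two_pow n t) (Nat.lt_succ_self _)

/-- the bitwise order -/
def Mask (X Y : ℕ) : Prop := ∀ i, X.testBit i = true → Y.testBit i = true

theorem Mask.le {X Y : ℕ} (h : Mask X Y) : X ≤ Y := by
  have h1 : X &&& Y = X := by
    apply Nat.eq_of_testBit_eq
    intro i
    rw [Nat.testBit_and]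
    cases h2 : X.testBit i with
    | false => rfl
    | true => rw [h i h2]; rfl
  calc X = X &&& Y := h1.symm
    _ ≤ Y := Nat.and_le_right

theorem mask_refl (X : ℕ) : Mask X X := fun _ h => h

theorem zero_mask (Y : ℕ) : Mask 0 Y := by
  intro i h
  simp at h

theorem mask_pow_sub_one {X u : ℕ} (h : X < 2 ^ u) : Mask X (2 ^ u - 1) := by
  intro i hi
  rw [Nat.testBit_two_pow_sub_one, decide_eq_true_eq]
  by_contra hc
  rw [Nat.testBit_eq_false_of_lt (lt_of_lt_of_le h (Nat.pow_le_pow_right (by norm_num)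
    (not_lt.1 hc)))] at hi
  exact Bool.noConfusion hi

theorem mask_half (X Y : ℕ) : Mask X Y ↔ (X % 2 = 1 → Y % 2 = 1) ∧ Mask (X / 2) (Y / 2) := by
  unfold Mask
  constructor
  · intro h
    constructor
    · have h0 := h 0
      simpa [Nat.testBit_zero] using h0
    · intro i
      have h1 := h (i + 1)
      rwa [Nat.testBit_add_one, Nat.testBit_add_one] at h1
  · rintro ⟨h0, h1⟩ i
    cases i with
    | zero => simpa [Nat.testBit_zero] using h0
    | succ i =>
      rw [Nat.testBit_add_one, Nat.testBit_add_one]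
      exact h1 i

theorem mask_iff_choose (X Y : ℕ) : Mask X Y ↔ Y.choose X % 2 = 1 := by
  induction Y using Nat.strong_induction_on generalizing X with
  | _ Y ih =>
    rcases Nat.eq_zero_or_pos Y with rfl | hY
    · rcases Nat.eq_zero_or_pos X with rfl | hX
      · simp [mask_refl]
      · rw [Nat.choose_eq_zero_of_lt hX]
        constructor
        · intro h
          have := h.le
          omega
        · intro h
          simp at h
    · rw [mask_half, ih (Y / 2) (by omega)]
      have h2 : Fact (Nat.Prime 2) := ⟨Nat.prime_two⟩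
      have h1 : Y.choose X % 2 = ((Y % 2).choose (X % 2) * (Y / 2).choose (X / 2)) % 2 :=
        Choose.choose_modEq_choose_mod_mul_choose_div_nat
      rw [h1, Nat.mul_mod]
      rcases Nat.mod_two_eq_zero_or_one X with hx | hx <;>
        rcases Nat.mod_two_eq_zero_or_one Y with hy | hy <;> rw [hx, hy] <;> simp

variable {m : ℕ}

theorem testBit_add_mul {a b : ℕ} (ha : a < 2 ^ m) (i : ℕ) :
    (a + 2 ^ m * b).testBit i = if i < m then a.testBit i else b.testBit (i - m) := by
  rw [add_comm]
  exact Nat.testBit_two_pow_mul_add b ha i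

theorem mask_add_mul {a b X : ℕ} (ha : a < 2 ^ m) :
    Mask X (a + 2 ^ m * b) ↔ Mask (X % 2 ^ m) a ∧ Mask (X / 2 ^ m) b := by
  have hX : X = X % 2 ^ m + 2 ^ m * (X / 2 ^ m) := (Nat.mod_add_div X (2 ^ m)).symm
  have hlt : X % 2 ^ m < 2 ^ m := Nat.mod_lt _ (Nat.two_pow_pos m)
  constructor
  · intro h
    rw [hX] at h
    constructor
    · intro i hi
      have h1 := h i
      rw [testBit_add_mul hlt, testBit_add_mul ha] at h1
      by_cases him : i < m
      · rw [if_pos him, if_pos him] at h1
        exact h1 hi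
      · exfalso
        rw [Nat.testBit_eq_false_of_lt (lt_of_lt_of_le hlt (Nat.pow_le_pow_right (by norm_num)
          (not_lt.1 him)))] at hi
        exact Bool.noConfusion hi
    · intro i hi
      have h1 := h (i + m)
      rw [testBit_add_mul hlt, testBit_add_mul ha, if_neg (by omega), if_neg (by omega),
        Nat.add_sub_cancel] at h1
      exact h1 hi
  · rintro ⟨h1, h2⟩
    rw [hX]
    intro i
    rw [testBit_add_mul hlt, testBit_add_mul ha]
    split
    · exact h1 i
    · exact h2 _

theorem mask_enc {T X : ℕ} {y : ℕ → ℕ} (hy : ∀ t < T, y t < 2 ^ m)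
    (h : Mask X (enc (2 ^ m) T y)) :
    ∃ x : ℕ → ℕ, X = enc (2 ^ m) T x ∧ ∀ t < T, Mask (x t) (y t) := by
  induction T generalizing X y with
  | zero =>
    refine ⟨fun _ => 0, ?_, fun t ht => absurd ht (Nat.not_lt_zero t)⟩
    exact Nat.le_zero.1 h.le
  | succ T ih =>
    rw [enc, mask_add_mul (hy 0 (Nat.succ_pos T))] at h
    obtain ⟨x, hx, hx'⟩ := ih (fun t ht => hy (t + 1) (Nat.succ_lt_succ ht)) h.2
    refine ⟨fun t => Nat.casesOn t (X % 2 ^ m) x, ?_, ?_⟩
    · rw [enc]
      show X = X % 2 ^ m + 2 ^ m * enc (2 ^ m) T x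
      rw [← hx, Nat.mod_add_div]
    · intro t ht
      cases t with
      | zero => exact h.1
      | succ t => exact hx' t (Nat.lt_of_succ_lt_succ ht)

theorem enc_mask {T : ℕ} {x y : ℕ → ℕ} (hy : ∀ t < T, y t < 2 ^ m)
    (h : ∀ t < T, Mask (x t) (y t)) : Mask (enc (2 ^ m) T x) (enc (2 ^ m) T y) := by
  induction T generalizing x y with
  | zero => exact mask_refl _
  | succ T ih =>
    rw [enc, enc, mask_add_mul (hy 0 (Nat.succ_pos T))]
    have h0 := h 0 (Nat.succ_pos T)
    have hx : x 0 < 2 ^ m := lt_of_le_of_lt h0.le (hy 0 (Nat.succ_pos T))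
    rw [Nat.add_mul_mod_self_left, Nat.mod_eq_of_lt hx,
      Nat.add_mul_div_left _ _ (Nat.two_pow_pos m), Nat.div_eq_of_lt hx, zero_add]
    exact ⟨h0, ih (fun t ht => hy (t + 1) (Nat.succ_lt_succ ht))
      (fun t ht => h (t + 1) (Nat.succ_lt_succ ht))⟩

section dioph

open Dioph

variable {α : Type}

theorem choose_dioph {f g : (α → ℕ) → ℕ} (df : DiophFn f) (dg : DiophFn g) :
    DiophFn fun v => (f v).choose (g v) := by
  have h1 : DiophFn fun v => 2 ^ f v + 1 :=
    add_dioph (pow_dioph (const_dioph 2) df) (const_dioph 1)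
  have h2 : DiophFn fun v => ((2 ^ f v + 1 + 1) ^ f v / (2 ^ f v + 1) ^ g v) % (2 ^ f v + 1) :=
    mod_dioph (div_dioph (pow_dioph (add_dioph h1 (const_dioph 1)) df) (pow_dioph h1 dg)) h1
  have h3 : (fun v => (f v).choose (g v)) =
      fun v => ((2 ^ f v + 1 + 1) ^ f v / (2 ^ f v + 1) ^ g v) % (2 ^ f v + 1) := by
    funext v
    exact choose_eq _ _
  rw [h3]
  exact h2

theorem mask_dioph {f g : (α → ℕ) → ℕ} (df : DiophFn f) (dg : DiophFn g) :
    Dioph {v | Mask (f v) (g v)} := by
  refine Dioph.ext (eq_dioph (mod_dioph (choose_dioph dg df) (const_dioph 2)) (const_dioph 1)) ?_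
  intro v
  exact (mask_iff_choose (f v) (g v)).symm

theorem sum_dioph {ι : Type*} (s : Finset ι) {f : ι → (α → ℕ) → ℕ} (h : ∀ i, DiophFn (f i)) :
    DiophFn fun v => ∑ i ∈ s, f i v := by
  classical
  induction s using Finset.induction_on with
  | empty =>
    have h0 : (fun v : α → ℕ => ∑ i ∈ (∅ : Finset ι), f i v) = Function.const (α → ℕ) 0 := by
      funext v
      simp
    rw [h0]
    exact const_dioph 0
  | insert i s hi ih =>
    have h0 : (fun v : α → ℕ => ∑ i ∈ insert i s, f i v) =
        fun v => f i v + ∑ i ∈ s, f i v := by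
      funext v
      rw [Finset.sum_insert hi]
    rw [h0]
    exact add_dioph (h i) ih

theorem univ_dioph : Dioph (Set.univ : Set (α → ℕ)) := by
  refine Dioph.ext (eq_dioph (const_dioph 0) (const_dioph 0)) ?_
  intro v
  exact ⟨fun _ => trivial, fun _ => rfl⟩

theorem empty_dioph : Dioph (∅ : Set (α → ℕ)) := by
  refine Dioph.ext (eq_dioph (const_dioph 0) (const_dioph 1)) ?_
  intro v
  constructor
  · intro h
    exact absurd h (by show ¬ (0 = 1); norm_num)
  · intro h
    exact absurd h (Set.notMem_empty v)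

theorem forall_dioph {ι : Type} [Finite ι] {S : ι → Set (α → ℕ)} (h : ∀ i, Dioph (S i)) :
    Dioph {v | ∀ i, v ∈ S i} := by
  classical
  cases nonempty_fintype ι
  have key : ∀ s : Finset ι, Dioph {v | ∀ i ∈ s, v ∈ S i} := by
    intro s
    induction s using Finset.induction_on with
    | empty =>
      refine Dioph.ext univ_dioph ?_
      intro v
      simp
    | insert i s hi ih =>
      refine Dioph.ext (inter (h i) ih) ?_
      intro v
      simp only [Set.mem_inter_iff, Set.mem_ofPred_eq, Finset.mem_insert, forall_eq_or_imp]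
  refine Dioph.ext (key Finset.univ) ?_
  intro v
  simp

theorem exists_dioph {ι : Type} [Finite ι] {S : ι → Set (α → ℕ)} (h : ∀ i, Dioph (S i)) :
    Dioph {v | ∃ i, v ∈ S i} := by
  classical
  cases nonempty_fintype ι
  have key : ∀ s : Finset ι, Dioph {v | ∃ i ∈ s, v ∈ S i} := by
    intro s
    induction s using Finset.induction_on with
    | empty =>
      refine Dioph.ext empty_dioph ?_
      intro v
      simp
    | insert i s hi ih =>
      refine Dioph.ext (union (h i) ih) ?_
      intro v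
      simp only [Set.mem_union, Set.mem_ofPred_eq, Finset.mem_insert, exists_eq_or_imp]
  refine Dioph.ext (key Finset.univ) ?_
  intro v
  simp

theorem prop_dioph (p : Prop) : Dioph {_v : α → ℕ | p} := by
  by_cases h : p
  · refine Dioph.ext univ_dioph ?_
    intro v
    simp [h]
  · refine Dioph.ext empty_dioph ?_
    intro v
    simp [h]

end dioph

end Pool.Agent.Helper64.MRDP
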