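import Mathlib
import Pool.Agent.Helper64.Tiling.Universal
import Pool.Agent.Helper64.MRDP.Digits

set_option autoImplicit false

namespace Pool.Agent.Helper64.MRDP

open Pool.Agent.Helper64.Tiling

/-! Halting of finite stack machines is Diophantine. -/

section codes

variable {Γ : Type}

/-- the code of an optional symbol -/
def oc (c : Γ → ℕ) : Option Γ → ℕ
  | none => 0
  | some a => c a

/-- the code of a stack in base `B` -/
def code (B : ℕ) (c : Γ → ℕ) : List Γ → ℕ
  | [] => 0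
  | a :: s => c a + B * code B c s

theorem code_eq (B : ℕ) (c : Γ → ℕ) (s : List Γ) :
    code B c s = oc c s[0]? + B * code B c s.tail := by
  cases s with
  | nil => simp [code, oc]
  | cons a s => simp [code, oc]

/-- coefficient of the rest of the stack after an operation -/
def ua (B : ℕ) : Op Γ → ℕ
  | .keep => B
  | .push _ => B * B
  | .pop => 1

/-- the contribution of the top symbols after an operation -/
def ub (B : ℕ) (c : Γ → ℕ) (o : Option Γ) : Op Γ → ℕ
  | .keep => oc c o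
  | .push a => B * oc c o + c a
  | .pop => 0

theorem code_apply (B : ℕ) (c : Γ → ℕ) (s : List Γ) (op : Op Γ) :
    code B c (op.apply s) = ua B op * code B c s.tail + ub B c s[0]? op := by
  cases op with
  | keep =>
    show code B c s = _
    rw [code_eq]
    simp only [ua, ub]
    ring
  | push a =>
    show code B c (a :: s) = _
    have h := code_eq B c s
    simp only [ua, ub, code]
    rw [h]
    ring
  | pop =>
    show code B c s.tail = _
    simp [ua, ub]

theorem oc_inj {c : Γ → ℕ} (hc : Function.Injective c) (hpos : ∀ a, 0 < c a) {o o' : Option Γ}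
    (h : oc c o = oc c o') : o = o' := by
  cases o with
  | none =>
    cases o' with
    | none => rfl
    | some a =>
      have := hpos a
      simp only [oc] at h
      omega
  | some a =>
    cases o' with
    | none =>
      have := hpos a
      simp only [oc] at h
      omega
    | some a' => rw [hc h]

theorem oc_lt {B : ℕ} {c : Γ → ℕ} (hB : 0 < B) (hlt : ∀ a, c a < B) (o : Option Γ) :
    oc c o < B := by
  cases o with
  | none => exact hB
  | some a => exact hlt a

theorem split_unique {B x y x' y' : ℕ} (hx : x < B) (hx' : x' < B) (h : x + B * y = x' + B * y') :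
    x = x' ∧ y = y' := by
  have h1 := congrArg (· % B) h
  simp only [Nat.add_mul_mod_self_left, Nat.mod_eq_of_lt hx, Nat.mod_eq_of_lt hx'] at h1
  subst h1
  exact ⟨rfl, Nat.eq_of_mul_eq_mul_left (lt_of_le_of_lt (Nat.zero_le _) hx)
    (Nat.add_left_cancel h)⟩

end codes

section system

variable {Q K Γ : Type}

/-- the new state -/
def nst (M : Mach Q K Γ) (σ : Q × (K → Option Γ)) : Q :=
  ((M.tr σ.1 σ.2).getD (σ.1, fun _ => Op.keep)).1

/-- the operations -/
def ops (M : Mach Q K Γ) (σ : Q × (K → Option Γ)) (κ : K) : Op Γ :=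
  ((M.tr σ.1 σ.2).getD (σ.1, fun _ => Op.keep)).2 κ

/-- the state and the top symbols of a configuration -/
def vis (c : Q × (K → List Γ)) : Q × (K → Option Γ) := (c.1, col c.2 0)

theorem run_succ (M : Mach Q K Γ) (c : Q × (K → List Γ)) (t : ℕ) :
    M.run c (t + 1) = (nst M (vis (M.run c t)), fun κ =>
      (ops M (vis (M.run c t)) κ).apply ((M.run c t).2 κ)) := by
  show (M.next (M.run c t)).getD (M.run c t) = _
  generalize M.run c t = d
  unfold Mach.next nst ops vis
  cases M.tr d.1 (col d.2 0) with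
  | none => rfl
  | some p => rfl

variable [Fintype Q] [Fintype K] [Fintype Γ] [DecidableEq Q] [DecidableEq K] [DecidableEq Γ]

/-- the indicator of equality -/
def ind {ι : Type} [DecidableEq ι] (a b : ι) : ℕ := if a = b then 1 else 0

/-- The system of conditions on the history of a computation. -/
structure Sys (M : Mach Q K Γ) (b : ℕ) (c : Γ → ℕ) (q0 : Q) (σf : Q × (K → Option Γ)) (r0 : K → ℕ)
    (T u I : ℕ) (L : Q × (K → Option Γ) → ℕ) (W : K → Q × (K → Option Γ) → ℕ) (wf : K → ℕ) :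
    Prop where
  hI : 2 ^ (b + b + u) * I + 1 = (2 ^ (b + b + u)) ^ T + I
  hL : ∀ σ, Mask (L σ) I
  hsum : ∑ σ, L σ = I
  hW : ∀ κ σ, Mask (W κ σ) ((2 ^ u - 1) * L σ)
  hr0 : ∀ κ, r0 κ < 2 ^ (b + b + u)
  hstate : ∀ q, ∑ σ, (0 * 0 + ind σ.1 q * L σ) + (2 ^ (b + b + u)) ^ T * ind σf.1 q =
    ind q0 q + 2 ^ (b + b + u) * ∑ σ, (0 * 0 + ind (nst M σ) q * L σ)
  hstack : ∀ κ, ∑ σ, (2 ^ b * W κ σ + oc c (σ.2 κ) * L σ) +
      (2 ^ (b + b + u)) ^ T * (2 ^ b * wf κ + oc c (σf.2 κ)) =
    r0 κ + 2 ^ (b + b + u) * ∑ σ, (ua (2 ^ b) (ops M σ κ) * W κ σ +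
      ub (2 ^ b) c (σ.2 κ) (ops M σ κ) * L σ)

theorem sum_form {ι : Type} [Fintype ι] [DecidableEq ι] {B T : ℕ} (s : ℕ → ι) (wd : ℕ → ℕ)
    (L W : ι → ℕ) (hl : ∀ σ, L σ = enc B T (fun t => if s t = σ then 1 else 0))
    (hw : ∀ σ, W σ = enc B T (fun t => if s t = σ then wd t else 0)) (a d : ι → ℕ) :
    ∑ σ, (a σ * W σ + d σ * L σ) = enc B T (fun t => a (s t) * wd t + d (s t)) := by
  have h1 : ∀ σ, a σ * W σ + d σ * L σ =
      enc B T (fun t => a σ * (if s t = σ then wd t else 0) + d σ * (if s t = σ then 1 else 0)) := by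
    intro σ
    rw [enc_add, enc_mul, enc_mul, hl, hw]
  rw [Finset.sum_congr rfl fun σ _ => h1 σ, ← enc_sum]
  congr 1
  funext t
  simp [Finset.sum_add_distrib]

/-- the digits of the history of states -/
theorem state_digits {ι : Type} [Fintype ι] [DecidableEq ι] {B T : ℕ} (s : ℕ → ι)
    (L : ι → ℕ) (hl : ∀ σ, L σ = enc B T (fun t => if s t = σ then 1 else 0)) (d : ι → ℕ) :
    ∑ σ, (0 * 0 + d σ * L σ) = enc B T (fun t => d (s t)) := by
  have h := sum_form s (fun _ => 0) L (fun _ => 0) hl (fun σ => by simp [enc_zero]) (fun _ => 0) d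
  simpa using h

theorem bound_aux {b u w o : ℕ} (hw : w < 2 ^ u) (ho : o < 2 ^ b) :
    2 ^ b * w + o < 2 ^ (b + u) := by
  rw [pow_add]
  calc 2 ^ b * w + o < 2 ^ b * w + 2 ^ b := by omega
    _ = 2 ^ b * (w + 1) := by ring
    _ ≤ 2 ^ b * 2 ^ u := Nat.mul_le_mul_left _ hw

theorem bound_R {b u w o : ℕ} (hw : w < 2 ^ u) (ho : o < 2 ^ b) :
    2 ^ b * w + o < 2 ^ (b + b + u) :=
  lt_of_lt_of_le (bound_aux hw ho) (Nat.pow_le_pow_right (by norm_num) (by omega))

omit [Fintype Γ] [DecidableEq Γ] in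
theorem bound_U {b u w : ℕ} {c : Γ → ℕ} (hc : ∀ a, c a < 2 ^ b) (hw : w < 2 ^ u) (o : Option Γ)
    (op : Op Γ) : ua (2 ^ b) op * w + ub (2 ^ b) c o op < 2 ^ (b + b + u) := by
  have ho := oc_lt (Nat.two_pow_pos b) hc o
  cases op with
  | keep => exact bound_R hw ho
  | push a =>
    show 2 ^ b * 2 ^ b * w + (2 ^ b * oc c o + c a) < _
    have h1 := bound_aux hw ho
    have h2 : 2 ^ b * (2 ^ b * w + oc c o) + c a < 2 ^ (b + (b + u)) := bound_aux h1 (hc a)
    have h3 : 2 ^ b * 2 ^ b * w + (2 ^ b * oc c o + c a) =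
        2 ^ b * (2 ^ b * w + oc c o) + c a := by ring
    rw [h3, add_assoc]
    exact h2
  | pop =>
    show 1 * w + 0 < _
    have h1 : 2 ^ u ≤ 2 ^ (b + b + u) := Nat.pow_le_pow_right (by norm_num) (by omega)
    omega

theorem exists_unique_of_sum {ι : Type} [Fintype ι] [DecidableEq ι] (l : ι → ℕ)
    (h : ∑ σ, l σ = 1) : ∃ σ, ∀ σ', l σ' = if σ = σ' then 1 else 0 := by
  have h1 : ∃ σ, l σ ≠ 0 := by
    by_contra hc
    push Not at hc
    rw [Finset.sum_eq_zero fun σ _ => hc σ] at h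
    exact absurd h (by norm_num)
  obtain ⟨σ, hσ⟩ := h1
  refine ⟨σ, fun σ' => ?_⟩
  have h2 := Finset.add_sum_erase Finset.univ l (Finset.mem_univ σ)
  rw [h] at h2
  have h3 : l σ = 1 := by omega
  have h4 : ∑ x ∈ Finset.univ.erase σ, l x = 0 := by omega
  by_cases he : σ = σ'
  · subst he
    rw [if_pos rfl]
    exact h3
  · rw [if_neg he]
    exact (Finset.sum_eq_zero_iff.1 h4) σ' (Finset.mem_erase.2 ⟨Ne.symm he, Finset.mem_univ _⟩)

/-- conditions on the codes -/
structure Codes (K Q Γ : Type) [Fintype Q] [Fintype K] [Fintype Γ] [DecidableEq K] (b : ℕ)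
    (c : Γ → ℕ) : Prop where
  inj : Function.Injective c
  pos : ∀ a, 0 < c a
  lt : ∀ a, c a < 2 ^ b
  card : Fintype.card (Q × (K → Option Γ)) < 2 ^ b
  hb : 0 < b

variable {M : Mach Q K Γ} {b : ℕ} {c : Γ → ℕ}

theorem enc_inj' {B T : ℕ} {x y : ℕ → ℕ} (hx : ∀ t < T, x t < B) (hy : ∀ t < T, y t < B)
    (h : enc B T x = enc B T y) : ∀ t < T, x t = y t := by
  cases T with
  | zero => exact fun t ht => absurd ht (Nat.not_lt_zero t)
  | succ T =>
    intro t ht
    exact enc_inj (fun t ht => hx t (by omega)) (fun t ht => hy t (by omega)) h t (by omega)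

theorem sys_sound (hc : Codes K Q Γ b c) {q0 : Q} {σf : Q × (K → Option Γ)} {S : K → List Γ}
    {T u I : ℕ} {L : Q × (K → Option Γ) → ℕ} {W : K → Q × (K → Option Γ) → ℕ} {wf : K → ℕ}
    (h : Sys M b c q0 σf (fun κ => code (2 ^ b) c (S κ)) T u I L W wf)
    (hf : M.tr σf.1 σf.2 = none) : M.Halts (q0, S) := by
  obtain ⟨hI, hL, hsum, hW, hr0, hstate, hstack⟩ := h
  have hcard : 2 ^ b ≤ 2 ^ (b + b + u) := Nat.pow_le_pow_right (by norm_num) (by omega)
  have hQ1 : 1 < 2 ^ (b + b + u) := by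
    have h1 : 2 ^ 1 ≤ 2 ^ (b + b + u) := Nat.pow_le_pow_right (by norm_num) (by have := hc.hb; omega)
    omega
  have hIe := enc_one_unique hQ1 hI
  rw [hIe] at hL hsum
  choose l hl hl1 using fun σ => mask_enc (fun t _ => hQ1) (hL σ)
  have hl1' : ∀ σ, ∀ t < T, l σ t ≤ 1 := fun σ t ht => (hl1 σ t ht).le
  have hsum' : ∀ t < T, ∑ σ, l σ t = 1 := by
    rw [Finset.sum_congr rfl fun σ _ => hl σ, ← enc_sum] at hsum
    refine enc_inj' ?_ (fun t _ => hQ1) hsum
    intro t ht
    calc ∑ σ, l σ t ≤ ∑ σ : Q × (K → Option Γ), 1 := Finset.sum_le_sum fun σ _ => hl1' σ t ht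
      _ = Fintype.card (Q × (K → Option Γ)) := by simp
      _ < 2 ^ b := hc.card
      _ ≤ _ := hcard
  choose s0 hs0 using fun t : Fin T => exists_unique_of_sum (fun σ => l σ t) (hsum' t t.2)
  let s : ℕ → Q × (K → Option Γ) := fun t => if ht : t < T then s0 ⟨t, ht⟩ else σf
  have hs : ∀ t < T, ∀ σ, l σ t = if s t = σ then 1 else 0 := by
    intro t ht σ
    have h1 : s t = s0 ⟨t, ht⟩ := dif_pos ht
    rw [h1]
    exact hs0 ⟨t, ht⟩ σ
  have hsT : s T = σf := dif_neg (lt_irrefl T)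
  have hle : ∀ σ, L σ = enc (2 ^ (b + b + u)) T (fun t => if s t = σ then 1 else 0) := by
    intro σ
    rw [hl σ]
    exact enc_congr T fun t ht => hs t ht σ
  have h2u : (2 ^ u - 1) < 2 ^ u := Nat.sub_lt (Nat.two_pow_pos u) one_pos
  have h2u' : 2 ^ u ≤ 2 ^ (b + b + u) := Nat.pow_le_pow_right (by norm_num) (by omega)
  have hWm : ∀ κ σ, Mask (W κ σ) (enc (2 ^ (b + b + u)) T (fun t => (2 ^ u - 1) * l σ t)) := by
    intro κ σ
    rw [enc_mul, ← hl σ]
    exact hW κ σ
  choose w hw hw1 using fun κ σ => mask_enc (fun t ht => by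
    have h1 := hl1' σ t ht
    calc (2 ^ u - 1) * l σ t ≤ (2 ^ u - 1) * 1 := Nat.mul_le_mul_left _ h1
      _ < 2 ^ (b + b + u) := by omega) (hWm κ σ)
  let wd : K → ℕ → ℕ := fun κ t => if t < T then w κ (s t) t else wf κ
  have hwT : ∀ κ, wd κ T = wf κ := fun κ => if_neg (lt_irrefl T)
  have hwlt : ∀ κ, ∀ t < T, wd κ t < 2 ^ u := by
    intro κ t ht
    have h1 : wd κ t = w κ (s t) t := if_pos ht
    rw [h1]
    have h2 := (hw1 κ (s t) t ht).le
    rw [hs t ht, if_pos rfl] at h2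
    omega
  have hwe : ∀ κ σ, W κ σ = enc (2 ^ (b + b + u)) T (fun t => if s t = σ then wd κ t else 0) := by
    intro κ σ
    rw [hw κ σ]
    refine enc_congr T fun t ht => ?_
    by_cases he : s t = σ
    · rw [if_pos he]
      have h1 : wd κ t = w κ (s t) t := if_pos ht
      rw [h1, he]
    · rw [if_neg he]
      have h2 := (hw1 κ σ t ht).le
      rw [hs t ht, if_neg he] at h2
      omega
  -- states
  have hst : ∀ q, ∀ t ≤ T, ind (s t).1 q =
      (Nat.casesOn t (ind q0 q) fun t => ind (nst M (s t)) q : ℕ) := by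
    intro q
    have h1 := hstate q
    rw [state_digits s L hle (fun σ => ind σ.1 q), state_digits s L hle (fun σ => ind (nst M σ) q),
      ← hsT] at h1
    have h2 : ∀ a b' : Q, ind a b' < 2 ^ (b + b + u) := by
      intro a b'
      unfold ind
      split
      · exact hQ1
      · omega
    refine enc_inj (Q := 2 ^ (b + b + u)) (fun t _ => h2 _ _) ?_ ?_
    · intro t _
      cases t with
      | zero => exact h2 _ _
      | succ t => exact h2 _ _
    · rw [enc_snoc]
      exact h1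
  have hst0 : (s 0).1 = q0 := by
    have h1 := hst q0 0 (Nat.zero_le _)
    have h2 : ind (s 0).1 q0 = ind q0 q0 := h1
    unfold ind at h2
    by_contra hne
    rw [if_neg hne, if_pos rfl] at h2
    exact absurd h2 (by norm_num)
  have hst1 : ∀ t < T, (s (t + 1)).1 = nst M (s t) := by
    intro t ht
    have h1 : ind (s (t + 1)).1 (nst M (s t)) = ind (nst M (s t)) (nst M (s t)) :=
      hst (nst M (s t)) (t + 1) ht
    unfold ind at h1
    by_contra hne
    rw [if_neg hne, if_pos rfl] at h1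
    exact absurd h1 (by norm_num)
  -- stacks
  have hsk : ∀ κ, ∀ t ≤ T, 2 ^ b * wd κ t + oc c ((s t).2 κ) =
      (Nat.casesOn t (code (2 ^ b) c (S κ)) fun t => ua (2 ^ b) (ops M (s t) κ) * wd κ t +
        ub (2 ^ b) c ((s t).2 κ) (ops M (s t) κ) : ℕ) := by
    intro κ
    have h1 := hstack κ
    rw [sum_form s (wd κ) L (W κ) hle (hwe κ) (fun _ => 2 ^ b) (fun σ => oc c (σ.2 κ)),
      sum_form s (wd κ) L (W κ) hle (hwe κ) (fun σ => ua (2 ^ b) (ops M σ κ))
        (fun σ => ub (2 ^ b) c (σ.2 κ) (ops M σ κ)), ← hsT, ← hwT κ] at h1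
    refine enc_inj (Q := 2 ^ (b + b + u)) ?_ ?_ ?_
    · intro t ht
      exact bound_R (hwlt κ t ht) (oc_lt (Nat.two_pow_pos b) hc.lt _)
    · intro t ht
      cases t with
      | zero => exact hr0 κ
      | succ t => exact bound_U hc.lt (hwlt κ t (by omega)) _ _
    · rw [enc_snoc]
      exact h1
  have key : ∀ t ≤ T, vis (M.run (q0, S) t) = s t ∧
      ∀ κ, code (2 ^ b) c ((M.run (q0, S) t).2 κ).tail = wd κ t := by
    have aux : ∀ t ≤ T, (M.run (q0, S) t).1 = (s t).1 →
        (∀ κ, code (2 ^ b) c ((M.run (q0, S) t).2 κ) = 2 ^ b * wd κ t + oc c ((s t).2 κ)) →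
        vis (M.run (q0, S) t) = s t ∧
        ∀ κ, code (2 ^ b) c ((M.run (q0, S) t).2 κ).tail = wd κ t := by
      intro t _ h1 h2
      have h3 : ∀ κ, oc c ((M.run (q0, S) t).2 κ)[0]? = oc c ((s t).2 κ) ∧
          code (2 ^ b) c ((M.run (q0, S) t).2 κ).tail = wd κ t := by
        intro κ
        apply split_unique (oc_lt (Nat.two_pow_pos b) hc.lt _) (oc_lt (Nat.two_pow_pos b) hc.lt _)
        rw [← code_eq, h2 κ, add_comm]
      refine ⟨Prod.ext h1 ?_, fun κ => (h3 κ).2⟩
      funext κ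
      exact oc_inj hc.inj hc.pos (h3 κ).1
    intro t
    induction t with
    | zero =>
      intro ht
      refine aux 0 ht hst0.symm fun κ => ?_
      exact (hsk κ 0 ht).symm
    | succ t ih =>
      intro ht
      obtain ⟨h1, h2⟩ := ih (by omega)
      have h3 := run_succ M (q0, S) t
      rw [h1] at h3
      refine aux (t + 1) ht ?_ ?_
      · rw [h3]
        exact (hst1 t ht).symm
      · intro κ
        rw [h3]
        show code (2 ^ b) c ((ops M (s t) κ).apply ((M.run (q0, S) t).2 κ)) = _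
        rw [code_apply, h2 κ, hsk κ (t + 1) ht]
        have h4 : ((M.run (q0, S) t).2 κ)[0]? = (s t).2 κ := congrFun (congrArg Prod.snd h1) κ
        rw [h4]
  obtain ⟨h1, -⟩ := key T le_rfl
  refine ⟨T, ?_⟩
  unfold Mach.next
  have h2 : M.tr (M.run (q0, S) T).1 (col (M.run (q0, S) T).2 0) = none := by
    rw [hsT] at h1
    rw [← hf, ← h1]
    rfl
  rw [h2]
  rfl

theorem sys_complete (hc : Codes K Q Γ b c) {q0 : Q} {S : K → List Γ} (h : M.Halts (q0, S)) :
    ∃ σf, M.tr σf.1 σf.2 = none ∧ ∃ T u I L W wf,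
      Sys M b c q0 σf (fun κ => code (2 ^ b) c (S κ)) T u I L W wf := by
  obtain ⟨T, hT⟩ := h
  let s : ℕ → Q × (K → Option Γ) := fun t => vis (M.run (q0, S) t)
  let wd : K → ℕ → ℕ := fun κ t => code (2 ^ b) c ((M.run (q0, S) t).2 κ).tail
  let u : ℕ := ∑ t ∈ Finset.range (T + 1), ∑ κ, code (2 ^ b) c ((M.run (q0, S) t).2 κ)
  have hu : ∀ t ≤ T, ∀ κ, code (2 ^ b) c ((M.run (q0, S) t).2 κ) < 2 ^ u := by
    intro t ht κ
    have h1 : code (2 ^ b) c ((M.run (q0, S) t).2 κ) ≤ u := by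
      calc code (2 ^ b) c ((M.run (q0, S) t).2 κ)
          ≤ ∑ κ, code (2 ^ b) c ((M.run (q0, S) t).2 κ) :=
            Finset.single_le_sum (f := fun κ => code (2 ^ b) c ((M.run (q0, S) t).2 κ))
              (fun _ _ => Nat.zero_le _) (Finset.mem_univ κ)
        _ ≤ u := Finset.single_le_sum
            (f := fun t => ∑ κ, code (2 ^ b) c ((M.run (q0, S) t).2 κ))
            (fun _ _ => Nat.zero_le _) (Finset.mem_range.2 (Nat.lt_succ_of_le ht))
    exact lt_of_le_of_lt h1 Nat.lt_two_pow_self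
  have hcode : ∀ t κ, code (2 ^ b) c ((M.run (q0, S) t).2 κ) =
      2 ^ b * wd κ t + oc c ((s t).2 κ) := by
    intro t κ
    rw [code_eq, add_comm]
    rfl
  have hwd : ∀ t ≤ T, ∀ κ, wd κ t < 2 ^ u := by
    intro t ht κ
    have h1 := hu t ht κ
    rw [hcode] at h1
    have h2 : wd κ t ≤ 2 ^ b * wd κ t := Nat.le_mul_of_pos_left _ (Nat.two_pow_pos b)
    omega
  have hQ1 : 1 < 2 ^ (b + b + u) := by
    have h1 : 2 ^ 1 ≤ 2 ^ (b + b + u) := Nat.pow_le_pow_right (by norm_num) (by have := hc.hb; omega)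
    omega
  have h2u' : 2 ^ u ≤ 2 ^ (b + b + u) := Nat.pow_le_pow_right (by norm_num) (by omega)
  have h2u : 0 < 2 ^ u := Nat.two_pow_pos u
  let L : Q × (K → Option Γ) → ℕ := fun σ =>
    enc (2 ^ (b + b + u)) T (fun t => if s t = σ then 1 else 0)
  let W : K → Q × (K → Option Γ) → ℕ := fun κ σ =>
    enc (2 ^ (b + b + u)) T (fun t => if s t = σ then wd κ t else 0)
  refine ⟨s T, ?_, T, u, enc (2 ^ (b + b + u)) T (fun _ => 1), L, W, fun κ => wd κ T, ?_⟩
  · unfold Mach.next at hT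
    rw [Option.map_eq_none_iff] at hT
    exact hT
  · refine ⟨enc_one T, ?_, ?_, ?_, ?_, ?_, ?_⟩
    · intro σ
      refine enc_mask (fun t _ => hQ1) fun t _ => ?_
      split
      · exact mask_refl 1
      · exact zero_mask 1
    · rw [← enc_sum]
      refine enc_congr T fun t _ => ?_
      simp
    · intro κ σ
      show Mask (enc _ T _) ((2 ^ u - 1) * enc _ T _)
      rw [← enc_mul]
      refine enc_mask (fun t _ => ?_) fun t ht => ?_
      · split
        · omega
        · omega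
      · split
        · rw [mul_one]
          exact mask_pow_sub_one (hwd t ht.le κ)
        · exact zero_mask _
    · intro κ
      exact lt_of_lt_of_le (hu 0 (Nat.zero_le _) κ) h2u'
    · intro q
      rw [state_digits s L (fun _ => rfl) (fun σ => ind σ.1 q),
        state_digits s L (fun _ => rfl) (fun σ => ind (nst M σ) q),
        ← enc_snoc (Q := 2 ^ (b + b + u)) T (fun t => ind (s t).1 q)]
      show ind (s 0).1 q + _ = _
      congr 2
      refine enc_congr T fun t _ => ?_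
      have h3 := run_succ M (q0, S) t
      show ind (M.run (q0, S) (t + 1)).1 q = _
      rw [h3]
    · intro κ
      rw [sum_form s (wd κ) L (W κ) (fun _ => rfl) (fun _ => rfl) (fun _ => 2 ^ b)
          (fun σ => oc c (σ.2 κ)),
        sum_form s (wd κ) L (W κ) (fun _ => rfl) (fun _ => rfl)
          (fun σ => ua (2 ^ b) (ops M σ κ)) (fun σ => ub (2 ^ b) c (σ.2 κ) (ops M σ κ)),
        ← enc_snoc (Q := 2 ^ (b + b + u)) T (fun t => 2 ^ b * wd κ t + oc c ((s t).2 κ))]
      show (2 ^ b * wd κ 0 + oc c ((s 0).2 κ)) + _ = _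
      rw [← hcode]
      congr 2
      refine enc_congr T fun t _ => ?_
      show 2 ^ b * wd κ (t + 1) + oc c ((s (t + 1)).2 κ) = _
      rw [← hcode, run_succ M (q0, S) t]
      show code (2 ^ b) c ((ops M (s t) κ).apply ((M.run (q0, S) t).2 κ)) = _
      rw [code_apply]
      rfl

end system

end Pool.Agent.Helper64.MRDP
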