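import Mathlib
import Pool.Agent.Helper64.MRDP.Machine

set_option autoImplicit false

namespace Pool.Agent.Helper64.MRDP

open Pool.Agent.Helper64.Tiling Dioph

/-! Computably enumerable sets are Diophantine. -/

section

variable {Q K Γ : Type} [Fintype Q] [Fintype K] [Fintype Γ] [DecidableEq Q] [DecidableEq K]
  [DecidableEq Γ]

omit [DecidableEq Γ] in
theorem sys_dioph {α : Type} (M : Mach Q K Γ) (b : ℕ) (c : Γ → ℕ) (q0 : Q)
    (σf : Q × (K → Option Γ)) {r0 : K → (α → ℕ) → ℕ} (hr : ∀ κ, DiophFn (r0 κ)) :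
    Dioph {v : α → ℕ | ∃ T u I L W wf, Sys M b c q0 σf (fun κ => r0 κ v) T u I L W wf} := by
  let β : Type := Fin 3 ⊕ ((Q × (K → Option Γ)) ⊕ ((K × (Q × (K → Option Γ))) ⊕ K))
  let vT : (α ⊕ β → ℕ) → ℕ := fun v => v (Sum.inr (Sum.inl 0))
  let vu : (α ⊕ β → ℕ) → ℕ := fun v => v (Sum.inr (Sum.inl 1))
  let vI : (α ⊕ β → ℕ) → ℕ := fun v => v (Sum.inr (Sum.inl 2))
  let vL : (Q × (K → Option Γ)) → (α ⊕ β → ℕ) → ℕ := fun σ v => v (Sum.inr (Sum.inr (Sum.inl σ)))
  let vW : K → (Q × (K → Option Γ)) → (α ⊕ β → ℕ) → ℕ := fun κ σ v =>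
    v (Sum.inr (Sum.inr (Sum.inr (Sum.inl (κ, σ)))))
  let vwf : K → (α ⊕ β → ℕ) → ℕ := fun κ v => v (Sum.inr (Sum.inr (Sum.inr (Sum.inr κ))))
  have dT : DiophFn vT := proj_dioph _
  have du : DiophFn vu := proj_dioph _
  have dI : DiophFn vI := proj_dioph _
  have dL : ∀ σ, DiophFn (vL σ) := fun σ => proj_dioph _
  have dW : ∀ κ σ, DiophFn (vW κ σ) := fun κ σ => proj_dioph _
  have dwf : ∀ κ, DiophFn (vwf κ) := fun κ => proj_dioph _
  have dr : ∀ κ, DiophFn fun v : α ⊕ β → ℕ => r0 κ (v ∘ Sum.inl) :=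
    fun κ => reindex_diophFn Sum.inl (hr κ)
  have dQ : DiophFn fun v => 2 ^ (b + b + vu v) :=
    pow_dioph (const_dioph 2) (add_dioph (const_dioph (b + b)) du)
  have dN : DiophFn fun v => (2 ^ (b + b + vu v)) ^ vT v := pow_dioph dQ dT
  have d1 := eq_dioph (add_dioph (mul_dioph dQ dI) (const_dioph 1)) (add_dioph dN dI)
  have d2 := forall_dioph fun σ => mask_dioph (dL σ) dI
  have d3 := eq_dioph (sum_dioph Finset.univ dL) dI
  have d4 := forall_dioph fun κ => forall_dioph fun σ => mask_dioph (dW κ σ)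
    (mul_dioph (sub_dioph (pow_dioph (const_dioph 2) du) (const_dioph 1)) (dL σ))
  have d5 := forall_dioph fun κ => lt_dioph (dr κ) dQ
  have d6 := forall_dioph fun q : Q => eq_dioph
    (add_dioph (sum_dioph Finset.univ fun σ : Q × (K → Option Γ) => add_dioph (const_dioph (0 * 0))
      (mul_dioph (const_dioph (ind σ.1 q)) (dL σ))) (mul_dioph dN (const_dioph (ind σf.1 q))))
    (add_dioph (const_dioph (ind q0 q)) (mul_dioph dQ (sum_dioph Finset.univ
      fun σ : Q × (K → Option Γ) => add_dioph (const_dioph (0 * 0))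
      (mul_dioph (const_dioph (ind (nst M σ) q)) (dL σ)))))
  have d7 := forall_dioph fun κ : K => eq_dioph
    (add_dioph (sum_dioph Finset.univ fun σ : Q × (K → Option Γ) =>
      add_dioph (mul_dioph (const_dioph (2 ^ b)) (dW κ σ))
        (mul_dioph (const_dioph (oc c (σ.2 κ))) (dL σ)))
      (mul_dioph dN (add_dioph (mul_dioph (const_dioph (2 ^ b)) (dwf κ))
        (const_dioph (oc c (σf.2 κ))))))
    (add_dioph (dr κ) (mul_dioph dQ (sum_dioph Finset.univ fun σ : Q × (K → Option Γ) =>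
      add_dioph (mul_dioph (const_dioph (ua (2 ^ b) (ops M σ κ))) (dW κ σ))
        (mul_dioph (const_dioph (ub (2 ^ b) c (σ.2 κ) (ops M σ κ))) (dL σ)))))
  have key : Dioph {v : α ⊕ β → ℕ | Sys M b c q0 σf (fun κ => r0 κ (v ∘ Sum.inl)) (vT v) (vu v)
      (vI v) (fun σ => vL σ v) (fun κ σ => vW κ σ v) (fun κ => vwf κ v)} := by
    refine Dioph.ext (inter d1 (inter d2 (inter d3 (inter d4 (inter d5 (inter d6 d7)))))) ?_
    intro v
    constructor
    · rintro ⟨h1, h2, h3, h4, h5, h6, h7⟩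
      exact ⟨h1, h2, h3, h4, h5, h6, h7⟩
    · rintro ⟨h1, h2, h3, h4, h5, h6, h7⟩
      exact ⟨h1, h2, h3, h4, h5, h6, h7⟩
  refine Dioph.ext (ex_dioph key) ?_
  intro v
  constructor
  · rintro ⟨x, hx⟩
    exact ⟨_, _, _, _, _, _, hx⟩
  · rintro ⟨T, u, I, L, W, wf, h⟩
    exact ⟨Sum.elim ![T, u, I] (Sum.elim L (Sum.elim (fun p => W p.1 p.2) wf)), h⟩

theorem exists_codes (K Q Γ : Type) [Fintype Q] [Fintype K] [Fintype Γ] [DecidableEq K] :
    ∃ (b : ℕ) (c : Γ → ℕ), Codes K Q Γ b c := by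
  let b : ℕ := Fintype.card (Q × (K → Option Γ)) + Fintype.card Γ + 1
  have hb : b < 2 ^ b := Nat.lt_two_pow_self
  refine ⟨b, fun a => (Fintype.equivFin Γ a : ℕ) + 1, ?_, fun a => Nat.succ_pos _, ?_, ?_, ?_⟩
  · intro x y h
    have h1 : (Fintype.equivFin Γ x : ℕ) = (Fintype.equivFin Γ y : ℕ) := Nat.succ_injective h
    exact (Fintype.equivFin Γ).injective (Fin.ext h1)
  · intro a
    have := (Fintype.equivFin Γ a).2
    omega
  · omega
  · omega

end

/-- halting of a finite stack machine is Diophantine when the codes of the initial stacks are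
Diophantine functions of the parameters -/
theorem halts_dioph {Q K Γ : Type} [Finite Q] [Finite K] [Finite Γ] (M : Mach Q K Γ) (q0 : Q)
    {α : Type} (S : (α → ℕ) → K → List Γ)
    (hS : ∀ (b : ℕ) (c : Γ → ℕ), 0 < b → ∀ κ, DiophFn fun v => code (2 ^ b) c (S v κ)) :
    Dioph {v | M.Halts (q0, S v)} := by
  classical
  cases nonempty_fintype Q
  cases nonempty_fintype K
  cases nonempty_fintype Γ
  obtain ⟨b, c, hc⟩ := exists_codes K Q Γ
  refine Dioph.ext (exists_dioph fun σf : Q × (K → Option Γ) => inter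
    (prop_dioph (M.tr σf.1 σf.2 = none)) (sys_dioph M b c q0 σf (hS b c hc.hb))) ?_
  intro v
  constructor
  · rintro ⟨σf, h1, T, u, I, L, W, wf, h2⟩
    exact sys_sound hc h2 h1
  · intro h
    obtain ⟨σf, h1, h2⟩ := sys_complete hc h
    exact ⟨σf, h1, h2⟩

open Turing Turing.PartrecToTM2 Turing.ToPartrec

instance : Finite Γ' := by
  apply Finite.of_injective (β := Fin 4) (fun
    | .consₗ => 0
    | .cons => 1
    | .bit0 => 2
    | .bit1 => 3)
  intro a b h
  cases a <;> cases b <;> simp_all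

/-- a computably enumerable set is the halting set of a finite machine -/
theorem exists_machine_re {p : ℕ → Prop} (hp : REPred p) :
    ∃ (Q : Type) (_ : Finite Q) (M : Mach Q K' Γ') (q0 : Q), ∀ e,
      p e ↔ M.Halts (q0, K'.elim (trList (List.replicate (e + 1) 1)) [] [] []) := by
  have hpart : Partrec fun v : List.Vector ℕ 1 =>
      (Part.assert (p (v.head - 1)) fun _ => Part.some ()).map fun _ => 0 := by
    apply Partrec.map _ (Computable.const 0).to₂
    exact hp.comp (Primrec.nat_sub.comp Primrec.vector_head (Primrec.const 1)).to_comp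
  obtain ⟨cu, hcu⟩ := Code.exists_code (Nat.Partrec'.part_iff.2 hpart)
  obtain ⟨Q, hQ, M, q0, h⟩ := exists_machine (.comp cu lenCode)
  refine ⟨Q, hQ, M, q0, fun e => ?_⟩
  rw [h]
  have h1 : (Code.comp cu lenCode).eval (List.replicate (e + 1) 1) = cu.eval [e + 1] := by
    show (lenCode.eval _ >>= cu.eval) = _
    rw [lenCode_eval]
    exact Part.bind_some _ _
  rw [h1, hcu ⟨[e + 1], rfl⟩]
  have h2 : (List.Vector.head (⟨[e + 1], rfl⟩ : List.Vector ℕ 1)) = e + 1 := rfl
  rw [h2]
  exact ⟨fun h => ⟨h, trivial⟩, fun h => h.1⟩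

theorem input_code (B : ℕ) (c : Γ' → ℕ) (n : ℕ) :
    code B c (trList (List.replicate n 1)) * (B * B) + (c .bit1 + B * c .cons) =
      (c .bit1 + B * c .cons) * (B * B) ^ n + code B c (trList (List.replicate n 1)) := by
  induction n with
  | zero => simp [code, trList]
  | succ n ih =>
    have h1 : code B c (trList (List.replicate (n + 1) 1)) =
        c .bit1 + B * (c .cons + B * code B c (trList (List.replicate n 1))) := rfl
    rw [h1, pow_succ]
    generalize code B c (trList (List.replicate n 1)) = x at *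
    have h2 : (c .bit1 + B * (c .cons + B * x)) * (B * B) + (c .bit1 + B * c .cons) =
        (x * (B * B) + (c .bit1 + B * c .cons)) * (B * B) + (c .bit1 + B * c .cons) := by ring
    rw [h2, ih]
    ring

/-- **The theorem of Davis, Putnam, Robinson and Matiyasevich** for sets of numbers -/
theorem dioph_of_re {p : ℕ → Prop} (hp : REPred p) : Dioph {v : Unit → ℕ | p (v ())} := by
  obtain ⟨Q, hQ, M, q0, h⟩ := exists_machine_re hp
  refine Dioph.ext (halts_dioph M q0
    (fun v : Unit → ℕ => K'.elim (trList (List.replicate (v () + 1) 1)) [] [] []) ?_)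
    fun v => (h (v ())).symm
  intro b c hb κ
  cases κ with
  | main =>
    have hB : 1 < 2 ^ b * 2 ^ b := by
      have h1 : 2 ^ 1 ≤ 2 ^ b := Nat.pow_le_pow_right (by norm_num) hb
      nlinarith
    have d1 : DiophFn fun v : Option Unit → ℕ => v none := proj_dioph none
    have d2 : DiophFn fun v : Option Unit → ℕ => v (some ()) := proj_dioph (some ())
    refine Dioph.ext (eq_dioph
      (add_dioph (mul_dioph d1 (const_dioph (2 ^ b * 2 ^ b)))
        (const_dioph (c .bit1 + 2 ^ b * c .cons)))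
      (add_dioph (mul_dioph (const_dioph (c .bit1 + 2 ^ b * c .cons))
        (pow_dioph (const_dioph (2 ^ b * 2 ^ b)) (add_dioph d2 (const_dioph 1)))) d1)) ?_
    intro v
    have h1 := input_code (2 ^ b) c (v (some ()) + 1)
    show v none * (2 ^ b * 2 ^ b) + (c .bit1 + 2 ^ b * c .cons) =
      (c .bit1 + 2 ^ b * c .cons) * (2 ^ b * 2 ^ b) ^ (v (some ()) + 1) + v none ↔
      code (2 ^ b) c (trList (List.replicate (v (some ()) + 1) 1)) = v none
    constructor
    · intro h2
      generalize code (2 ^ b) c (trList (List.replicate (v (some ()) + 1) 1)) = x at *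
      generalize v none = y at *
      generalize (c .bit1 + 2 ^ b * c .cons) * (2 ^ b * 2 ^ b) ^ (v (some ()) + 1) = z at *
      obtain ⟨k, hk⟩ : ∃ k, 2 ^ b * 2 ^ b = k + 2 := ⟨2 ^ b * 2 ^ b - 2, by omega⟩
      rw [hk] at h1 h2
      have e1 : x * (k + 2) = (k + 1) * x + x := by ring
      have e2 : y * (k + 2) = (k + 1) * y + y := by ring
      rw [e1] at h1
      rw [e2] at h2
      have e3 : (k + 1) * x = (k + 1) * y := by omega
      exact Nat.eq_of_mul_eq_mul_left (Nat.succ_pos k) e3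
    · intro h2
      rw [← h2]
      exact h1
  | rev => exact const_dioph 0
  | aux => exact const_dioph 0
  | stack => exact const_dioph 0

/-- there is a Diophantine set of numbers that is not computable -/
theorem exists_undecidable_dioph : ∃ S : Set (Unit → ℕ), Dioph S ∧
    ¬ ComputablePred (fun e : ℕ => (fun _ => e) ∈ S) := by
  have hre : REPred fun e : ℕ => ((Denumerable.ofNat Nat.Partrec.Code e).eval 0).Dom :=
    (ComputablePred.halting_problem_re 0).comp (Computable.ofNat Nat.Partrec.Code)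
  refine ⟨_, dioph_of_re hre, ?_⟩
  intro h
  apply ComputablePred.halting_problem 0
  refine ComputablePred.computable_of_manyOneReducible ?_ h
  refine ⟨Encodable.encode, Computable.encode, fun c => ?_⟩
  show _ ↔ ((Denumerable.ofNat Nat.Partrec.Code (Encodable.encode c)).eval 0).Dom
  simp

end Pool.Agent.Helper64.MRDP
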